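import Pool.Agent.W836.SH.Stm

/-!
# Project SH (MP_ba6ea3_co): the facts `S_FD` and `S_F5` from `S_C1`
-/

namespace Pool.Agent.W395.SH

open Pool.Agent.W836.SH
open scoped Classical

theorem pm_two {x : ℝ} (h : hf x) : pm (2 * x) := by
  rcases h with h | h
  · left; rw [h]; norm_num
  · right; rw [h]; norm_num

theorem hf_p {a : ℝ} (h : pm a) : hf (a * (1 / 2)) := by
  rcases h with h | h
  · left; rw [h]; norm_num
  · right; rw [h]; norm_num

theorem hf_m {a : ℝ} (h : pm a) : hf (a * (-(1 / 2))) := by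
  rcases h with h | h
  · right; rw [h]; norm_num
  · left; rw [h]; norm_num

theorem pm_mul {a b : ℝ} (h : pm a) (h' : pm b) : pm (a * b) := by
  rcases h with h | h <;> rcases h' with h' | h' <;> rw [h, h']
  · left; norm_num
  · right; norm_num
  · right; norm_num
  · left; norm_num

theorem pm_sq {a : ℝ} (h : pm a) : a * a = 1 := by
  rcases h with h | h <;> rw [h] <;> norm_num

theorem hf_ne {x y : ℝ} (hx : hf x) (hy : hf y) (h : x ≠ y) : y = -x := by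
  rcases hx with hx | hx <;> rcases hy with hy | hy <;> rw [hx, hy] at h ⊢
  · exact absurd rfl h
  · norm_num
  · exact absurd rfl h

theorem scl (h : S_C1) {ι : Type} (V : Finset (ι → ℝ)) (i : ι) (z z' : ι → ℝ) (hV : TS V)
    (hz : z ∈ V) (hz' : z' ∈ V) (hi : z i = z' i) (hp : pm (z i)) (n : ℕ)
    (r : Fin (n + 1) → ι) (t : Fin n → ι → ℝ) (ht : ∀ j, t j ∈ V) (ht0 : ∀ j, t j i = 0)
    (d : Fin (n + 1) → ℝ) (hd : ∀ a, pm (d a)) (c0 : Fin (n + 1) → ℝ)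
    (c : Fin n → Fin (n + 1) → ℝ) (h0 : ∀ a, z (r a) - z' (r a) = d a * c0 a)
    (h1 : ∀ j a, t j (r a) = d a * c j a) :
    |(Matrix.of fun a b => (Fin.cons c0 c : Fin (n + 1) → Fin (n + 1) → ℝ) b a :
      Matrix (Fin (n + 1)) (Fin (n + 1)) ℝ).det| ≤ 1 := by
  have h2 := h ι V i z z' hV hz hz' hi hp n r t ht ht0
  have h3 : (Matrix.of fun a b => (Fin.cons (z - z') t : Fin (n + 1) → ι → ℝ) b (r a) :
      Matrix (Fin (n + 1)) (Fin (n + 1)) ℝ) = Matrix.of fun a b => d a *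
      (Matrix.of fun a b => (Fin.cons c0 c : Fin (n + 1) → Fin (n + 1) → ℝ) b a :
        Matrix (Fin (n + 1)) (Fin (n + 1)) ℝ) a b := by
    ext a b
    simp only [Matrix.of_apply]
    refine Fin.cases ?_ (fun j => ?_) b
    · rw [Fin.cons_zero, Fin.cons_zero, Pi.sub_apply]
      exact h0 a
    · rw [Fin.cons_succ, Fin.cons_succ]
      exact h1 j a
  rw [h3, Matrix.det_mul_column, abs_mul, Finset.abs_prod] at h2
  have h4 : ∏ a, |d a| = 1 := by
    refine Finset.prod_eq_one fun a _ => ?_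
    rcases hd a with h | h <;> rw [h] <;> norm_num
  rwa [h4, one_mul] at h2

theorem d4a : |(Matrix.of fun a b => (Fin.cons ![1, 1, 1, 0]
      ![![1 / 2, 1 / 2, -(1 / 2), 1 / 2], ![1 / 2, -(1 / 2), 1 / 2, 1 / 2],
        ![1 / 2, -(1 / 2), -(1 / 2), -(1 / 2)]] : Fin (3 + 1) → Fin (3 + 1) → ℝ) b a :
      Matrix (Fin (3 + 1)) (Fin (3 + 1)) ℝ).det| ≤ 1 → False := by
  intro key
  revert key
  simp [Matrix.det_succ_row_zero, Fin.sum_univ_succ, Fin.succAbove]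
  norm_num

theorem d4b : |(Matrix.of fun a b => (Fin.cons ![1, 1, 1, 1]
      ![![1 / 2, 1 / 2, -(1 / 2), -(1 / 2)], ![1 / 2, -(1 / 2), 1 / 2, -(1 / 2)],
        ![1 / 2, -(1 / 2), -(1 / 2), 1 / 2]] : Fin (3 + 1) → Fin (3 + 1) → ℝ) b a :
      Matrix (Fin (3 + 1)) (Fin (3 + 1)) ℝ).det| ≤ 1 → False := by
  intro key
  revert key
  simp [Matrix.det_succ_row_zero, Fin.sum_univ_succ, Fin.succAbove]
  norm_num

theorem d5 : |(Matrix.of fun a b => (Fin.cons ![1, 0, 1, 0, 0]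
      ![![1 / 2, -(1 / 2), -(1 / 2), -(1 / 2), -(1 / 2)],
        ![1 / 2, -(1 / 2), -(1 / 2), 1 / 2, 1 / 2],
        ![1 / 2, 1 / 2, -(1 / 2), 1 / 2, -(1 / 2)],
        ![1 / 2, 1 / 2, 1 / 2, -(1 / 2), 1 / 2]] : Fin (4 + 1) → Fin (4 + 1) → ℝ) b a :
      Matrix (Fin (4 + 1)) (Fin (4 + 1)) ℝ).det| ≤ 1 → False := by
  intro key
  revert key
  simp [Matrix.det_succ_row_zero, Fin.sum_univ_succ, Fin.succAbove]
  norm_num

theorem fd (h : S_C1) : S_FD := by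
  intro ι V i p q r u z z' hV hF hz hz' hi hpm hzp hzq hzr hzu hzp' hzq' hzr' hzu' hp hq hr
  have hp1 := hf_ne hzp hzp' hp
  have hq1 := hf_ne hzq hzq' hq
  have hr1 := hf_ne hzr hzr' hr
  have ap := pm_two hzp
  have aq := pm_two hzq
  have ar := pm_two hzr
  have au := pm_two hzu
  by_cases hu : z u = z' u
  · obtain ⟨t1, ht1, a1, b1, c1, d1⟩ := hF _ _ _ _ (hf_p ap) (hf_p aq) (hf_m ar) (hf_p au)
    obtain ⟨t2, ht2, a2, b2, c2, d2⟩ := hF _ _ _ _ (hf_p ap) (hf_m aq) (hf_p ar) (hf_p au)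
    obtain ⟨t3, ht3, a3, b3, c3, d3⟩ := hF _ _ _ _ (hf_p ap) (hf_m aq) (hf_m ar) (hf_m au)
    rw [Finset.mem_filter] at ht1 ht2 ht3
    exact d4a (scl h V i z z' hV hz hz' hi hpm 3 ![p, q, r, u] ![t1, t2, t3]
      (by simp [Fin.forall_fin_succ, ht1.1, ht2.1, ht3.1])
      (by simp [Fin.forall_fin_succ, ht1.2, ht2.2, ht3.2])
      ![2 * z p, 2 * z q, 2 * z r, 2 * z u]
      (by simp [Fin.forall_fin_succ, ap, aq, ar, au])
      ![1, 1, 1, 0] ![![1 / 2, 1 / 2, -(1 / 2), 1 / 2], ![1 / 2, -(1 / 2), 1 / 2, 1 / 2],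
        ![1 / 2, -(1 / 2), -(1 / 2), -(1 / 2)]]
      (by
        simp only [Fin.forall_fin_succ, Fin.isValue, Matrix.cons_val_zero, Matrix.cons_val_succ,
          hp1, hq1, hr1, ← hu]
        refine ⟨by ring, by ring, by ring, by ring, ?_⟩
        intro j; exact j.elim0)
      (by
        simp only [Fin.forall_fin_succ, Fin.isValue, Matrix.cons_val_zero, Matrix.cons_val_succ,
          a1, b1, c1, d1, a2, b2, c2, d2, a3, b3, c3, d3]
        simp))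
  · have hu1 := hf_ne hzu hzu' hu
    obtain ⟨t1, ht1, a1, b1, c1, d1⟩ := hF _ _ _ _ (hf_p ap) (hf_p aq) (hf_m ar) (hf_m au)
    obtain ⟨t2, ht2, a2, b2, c2, d2⟩ := hF _ _ _ _ (hf_p ap) (hf_m aq) (hf_p ar) (hf_m au)
    obtain ⟨t3, ht3, a3, b3, c3, d3⟩ := hF _ _ _ _ (hf_p ap) (hf_m aq) (hf_m ar) (hf_p au)
    rw [Finset.mem_filter] at ht1 ht2 ht3
    exact d4b (scl h V i z z' hV hz hz' hi hpm 3 ![p, q, r, u] ![t1, t2, t3]
      (by simp [Fin.forall_fin_succ, ht1.1, ht2.1, ht3.1])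
      (by simp [Fin.forall_fin_succ, ht1.2, ht2.2, ht3.2])
      ![2 * z p, 2 * z q, 2 * z r, 2 * z u]
      (by simp [Fin.forall_fin_succ, ap, aq, ar, au])
      ![1, 1, 1, 1] ![![1 / 2, 1 / 2, -(1 / 2), -(1 / 2)], ![1 / 2, -(1 / 2), 1 / 2, -(1 / 2)],
        ![1 / 2, -(1 / 2), -(1 / 2), 1 / 2]]
      (by
        simp only [Fin.forall_fin_succ, Fin.isValue, Matrix.cons_val_zero, Matrix.cons_val_succ,
          hp1, hq1, hr1, hu1]
        refine ⟨by ring, by ring, by ring, by ring, ?_⟩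
        intro j; exact j.elim0)
      (by
        simp only [Fin.forall_fin_succ, Fin.isValue, Matrix.cons_val_zero, Matrix.cons_val_succ,
          a1, b1, c1, d1, a2, b2, c2, d2, a3, b3, c3, d3]
        simp))

theorem f5 (h : S_C1) (h2 : S_FD) : S_F5 := by
  intro ι V i s j a b c κa κb κc x x' y y' hV hκa hκb _ F1 F2 _ hx _ _ hy' hX hY hi hpm si sj sa
    sb sc xj xa xb xc yj ya yb yc hne
  obtain ⟨xs, _, _⟩ := hX
  obtain ⟨_, ys, hyl⟩ := hY
  have hys : hf (y' s) := Or.inr ys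
  have hxs : hf (x s) := Or.inl xs
  have hsne : x s ≠ y' s := by rw [xs, ys]; norm_num
  have ei : y' i = y i := (hyl i si.symm).symm
  have ej : y' j = y j := (hyl j sj.symm).symm
  have ea : y' a = y a := (hyl a sa.symm).symm
  have eb : y' b = y b := (hyl b sb.symm).symm
  have ec : y' c = y c := (hyl c sc.symm).symm
  have hii : x i = y' i := by rw [ei, hi]
  have hane : x a ≠ y' a := by rw [ea]; exact hne
  have hxj : x j = y j := by
    by_contra hc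
    refine h2 ι V i s a j b x y' hV ?_ hx hy' hii hpm hxs xa xj xb hys (ea ▸ ya) (ej ▸ yj)
      (eb ▸ yb) hsne hane (by rw [ej]; exact hc)
    intro e0 e1 e2 e3 g0 g1 g2 g3
    obtain ⟨v, hv, v0, v1, v2, v3, v4, v5⟩ := F1 e0 e2 e1 e3 g0 g2 g1 g3
    exact ⟨v, Finset.mem_filter.mpr ⟨hv, v0⟩, v1, v3, v2, v4⟩
  have hxb : x b = y b := by
    by_contra hc
    refine h2 ι V i s a b j x y' hV ?_ hx hy' hii hpm hxs xa xb xj hys (ea ▸ ya) (eb ▸ yb)
      (ej ▸ yj) hsne hane (by rw [eb]; exact hc)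
    intro e0 e1 e2 e3 g0 g1 g2 g3
    obtain ⟨v, hv, v0, v1, v2, v3, v4, v5⟩ := F1 e0 e3 e1 e2 g0 g3 g1 g2
    exact ⟨v, Finset.mem_filter.mpr ⟨hv, v0⟩, v1, v3, v4, v2⟩
  have hf_mul : ∀ {k e : ℝ}, pm k → hf e → hf (k * e) := by
    intro k e hk he
    rcases hk with hk | hk <;> rw [hk]
    · rw [one_mul]; exact he
    · rcases he with he | he
      · right; rw [he]; norm_num
      · left; rw [he]; norm_num
  have hxc : x c = y c := by
    by_contra hc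
    refine h2 ι V i s a c j x y' hV ?_ hx hy' hii hpm hxs xa xc xj hys (ea ▸ ya) (ec ▸ yc)
      (ej ▸ yj) hsne hane (by rw [ec]; exact hc)
    intro e0 e1 e2 e3 g0 g1 g2 g3
    obtain ⟨v, hv, v0, v1, v2, v3, v4, v5⟩ := F1 e0 e3 e1 (κa * e2) g0 g3 g1 (hf_mul hκa g2)
    refine ⟨v, Finset.mem_filter.mpr ⟨hv, v0⟩, v1, v3, ?_, v2⟩
    rw [v5, ← mul_assoc, pm_sq hκa, one_mul]
  have hya : y a = -x a := hf_ne xa ya hne
  have al := pm_two xa
  obtain ⟨α, hα⟩ : ∃ α : ℝ, α = 2 * x a := ⟨_, rfl⟩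
  rw [← hα] at al
  have one : pm 1 := Or.inl rfl
  have hpb : pm (κa * κb * α) := pm_mul (pm_mul hκa hκb) al
  have hpc : pm (κb * α) := pm_mul hκb al
  have ka := pm_sq hκa
  obtain ⟨t1, m1, z1, s1, j1, a1, b1, c1⟩ := F1 (1 * (1 / 2)) (1 * (-(1 / 2))) (α * (-(1 / 2)))
    (κa * κb * α * (-(1 / 2))) (hf_p one) (hf_m one) (hf_m al) (hf_m hpb)
  obtain ⟨t2, m2, z2, s2, j2, a2, b2, c2⟩ := F1 (1 * (1 / 2)) (1 * (-(1 / 2))) (α * (-(1 / 2)))
    (κa * κb * α * (1 / 2)) (hf_p one) (hf_m one) (hf_m al) (hf_p hpb)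
  obtain ⟨t3, m3, z3, s3, j3, b3, a3, c3⟩ := F2 (1 * (1 / 2)) (1 * (1 / 2))
    (κa * κb * α * (1 / 2)) (α * (-(1 / 2))) (hf_p one) (hf_p one) (hf_p hpb) (hf_m al)
  obtain ⟨t4, m4, z4, s4, j4, b4, a4, c4⟩ := F2 (1 * (1 / 2)) (1 * (1 / 2))
    (κa * κb * α * (-(1 / 2))) (α * (1 / 2)) (hf_p one) (hf_p one) (hf_m hpb) (hf_p al)
  have c1' : t1 c = κb * α * (-(1 / 2)) := by
    rw [c1]; linear_combination (κb * α * (-(1 / 2))) * ka
  have c2' : t2 c = κb * α * (1 / 2) := by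
    rw [c2]; linear_combination (κb * α * (1 / 2)) * ka
  have c3' : t3 c = κb * α * (-(1 / 2)) := by rw [c3]; ring
  have c4' : t4 c = κb * α * (1 / 2) := by rw [c4]; ring
  refine d5 (scl h V i x y' hV hx hy' hii hpm 4 ![s, j, a, b, c] ![t1, t2, t3, t4]
      (by simp [Fin.forall_fin_succ, m1, m2, m3, m4])
      (by simp [Fin.forall_fin_succ, z1, z2, z3, z4])
      ![1, 1, α, κa * κb * α, κb * α]
      (by simp [Fin.forall_fin_succ, one, al, hpb, hpc])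
      ![1, 0, 1, 0, 0] ![![1 / 2, -(1 / 2), -(1 / 2), -(1 / 2), -(1 / 2)],
        ![1 / 2, -(1 / 2), -(1 / 2), 1 / 2, 1 / 2],
        ![1 / 2, 1 / 2, -(1 / 2), 1 / 2, -(1 / 2)],
        ![1 / 2, 1 / 2, 1 / 2, -(1 / 2), 1 / 2]] ?_ ?_)
  · simp only [Fin.forall_fin_succ, Fin.isValue, Matrix.cons_val_zero, Matrix.cons_val_succ,
      xs, ys, ej, ea, eb, ec, hxj, hxb, hxc, hya, hα]
    refine ⟨by ring, by ring, by ring, by ring, by ring, ?_⟩
    intro j; exact j.elim0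
  · simp only [Fin.forall_fin_succ, Fin.isValue, Matrix.cons_val_zero, Matrix.cons_val_succ,
      s1, j1, a1, b1, c1', s2, j2, a2, b2, c2', s3, j3, a3, b3, c3', s4, j4, a4, b4, c4']
    simp

end Pool.Agent.W395.SH
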